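import Pool.Agent.helper35.MR.SpecA

/-!
# Module CMP of project mr: compression of positions
-/

set_option autoImplicit false

open Finset

namespace Pool.Agent.helper35.MR

open Pool.Agent.RRank

theorem CMP_lt (P : Finset ℤ) {p q : ℤ} (hp : p ∈ P) (h : p < q) :
    (P.filter (· < p)).card < (P.filter (· < q)).card := by
  apply Finset.card_lt_card
  rw [Finset.ssubset_iff_of_subset]
  · exact ⟨p, by simp [hp, h], by simp⟩
  · intro a ha
    rw [Finset.mem_filter] at ha ⊢
    exact ⟨ha.1, ha.2.trans h⟩

theorem CMP_cmp (P : Finset ℤ) {p q : ℤ} (hp : p ∈ P) (hq : q ∈ P) :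
    cmp p q = cmp (((P.filter (· < p)).card : ℕ) : ℤ) (((P.filter (· < q)).card : ℕ) : ℤ) := by
  rcases lt_trichotomy p q with h | h | h
  · have := CMP_lt P hp h
    rw [(cmp_eq_lt_iff _ _).2 h, (cmp_eq_lt_iff _ _).2 (by exact_mod_cast this)]
  · subst h
    simp
  · have := CMP_lt P hq h
    rw [(cmp_eq_gt_iff _ _).2 h, (cmp_eq_gt_iff _ _).2 (by exact_mod_cast this)]

theorem CMP : CMP_stmt := by
  rintro K _ V hV l ⟨x, y, z, hF⟩
  classical
  let P : Finset ℤ := (univ.image x ∪ univ.image y) ∪ univ.image z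
  have hcard : P.card ≤ 3 * l := by
    have h1 : (univ.image x).card ≤ l := by simpa using Finset.card_image_le (s := univ) (f := x)
    have h2 : (univ.image y).card ≤ l := by simpa using Finset.card_image_le (s := univ) (f := y)
    have h3 : (univ.image z).card ≤ l := by simpa using Finset.card_image_le (s := univ) (f := z)
    have h4 := Finset.card_union_le (univ.image x) (univ.image y)
    have h5 := Finset.card_union_le (univ.image x ∪ univ.image y) (univ.image z)
    have h6 : P.card = ((univ.image x ∪ univ.image y) ∪ univ.image z).card := rfl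
    omega
  have hx : ∀ i, x i ∈ P := fun i => by simp [P]
  have hy : ∀ i, y i ∈ P := fun i => by simp [P]
  have hz : ∀ i, z i ∈ P := fun i => by simp [P]
  have hb : ∀ p ∈ P, (P.filter (· < p)).card < 3 * l := by
    intro p hp
    refine lt_of_lt_of_le (Finset.card_lt_card ?_) hcard
    rw [Finset.ssubset_iff_of_subset (Finset.filter_subset _ _)]
    exact ⟨p, hp, by simp⟩
  refine ⟨fun i => ⟨(P.filter (· < x i)).card, hb _ (hx i)⟩,
    fun i => ⟨(P.filter (· < y i)).card, hb _ (hy i)⟩,
    fun i => ⟨(P.filter (· < z i)).card, hb _ (hz i)⟩, ?_⟩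
  have he : (fun i j k => V (x i) (y j) (z k)) = fun i j k =>
      V (((P.filter (· < x i)).card : ℕ) : ℤ) (((P.filter (· < y j)).card : ℕ) : ℤ)
        (((P.filter (· < z k)).card : ℕ) : ℤ) := by
    funext i j k
    exact hV _ _ _ _ _ _ (CMP_cmp P (hx i) (hy j)) (CMP_cmp P (hy j) (hz k))
      (CMP_cmp P (hx i) (hz k))
  rw [he] at hF
  exact hF

end Pool.Agent.helper35.MR
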