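import Pool.Agent.helper35.MR.SpecA

/-!
# Module LW of project mr: a function of the order type which is not low
-/

set_option autoImplicit false

open Finset

namespace Pool.Agent.helper35.MR

open Pool.Agent.RRank

theorem LW_alt0 {d : ℕ} {K : Type} [Field K] (g : (Fin d → ℤ) → K) (α : Fin d)
    (hg : ∀ x y : Fin d → ℤ, (∀ β, β ≠ α → x β = y β) → g x = g y) (x y : Fin d → ℤ) :
    alt (Q := fun _ => ℤ) g x y = 0 := by
  classical
  unfold alt
  have hs : ∀ e : Fin d → Bool, (∏ β, if Function.update e α (!e α) β then (-1 : K) else 1) =
      - ∏ β, if e β then (-1 : K) else 1 := by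
    intro e
    rw [← Finset.mul_prod_erase univ _ (mem_univ α),
      ← Finset.mul_prod_erase univ (fun β => if e β then (-1 : K) else 1) (mem_univ α)]
    have : ∏ β ∈ univ.erase α, (if Function.update e α (!e α) β then (-1 : K) else 1) =
        ∏ β ∈ univ.erase α, if e β then (-1 : K) else 1 := by
      refine Finset.prod_congr rfl fun β hβ => ?_
      rw [Function.update_of_ne (Finset.ne_of_mem_erase hβ)]
    rw [this, Function.update_self]
    cases e α <;> simp
  refine Finset.sum_involution (fun e _ => Function.update e α (!e α)) ?_ ?_ ?_ ?_
  · intro e _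
    rw [hs e]
    have : g (fun β => if Function.update e α (!e α) β then y β else x β) =
        g (fun β => if e β then y β else x β) := by
      refine hg _ _ fun β hβ => ?_
      rw [Function.update_of_ne hβ]
    rw [this]
    ring
  · intro e _ _ h
    have := congrFun h α
    rw [Function.update_self] at this
    cases h' : e α <;> simp [h'] at this
  · intro e _
    exact mem_univ _
  · intro e _
    simp

theorem LW : LW_stmt := by
  rintro d hd K _ W hW h0 h1 ⟨g, hg1, hg2, hg3⟩
  classical
  let y : Fin d → ℤ := fun β => (β : ℕ) + 1
  have e1 : alt (Q := fun _ => ℤ) W (fun _ => 0) y = W (fun _ => 0) := by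
    unfold alt
    rw [Finset.sum_eq_single (fun _ => false)]
    · simp
    · intro e _ he
      have hne : (univ.filter (fun β => e β = true)).Nonempty := by
        by_contra hn
        rw [Finset.not_nonempty_iff_eq_empty] at hn
        apply he
        funext β
        have : β ∉ univ.filter (fun β => e β = true) := by rw [hn]; simp
        simpa using this
      obtain ⟨α, hα, hmax⟩ := Finset.exists_max_image _ (fun β : Fin d => (β : ℕ)) hne
      rw [Finset.mem_filter] at hα
      rw [h0 _ ⟨α, fun β hβ => ?_⟩, mul_zero]
      simp only [hα.2, if_true]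
      by_cases hb : e β = true
      · have h2 := hmax β (by simp [hb])
        have h3 : (β : ℕ) ≠ α := fun h => hβ (Fin.ext h)
        simp only [hb, if_true, y]
        omega
      · simp only [hb, y]
        simp only [Bool.false_eq_true, if_false]
        omega
    · intro h
      exact absurd (mem_univ _) h
  have e2 : alt (Q := fun _ => ℤ) W (fun _ => 0) y =
      ∑ α, alt (Q := fun _ => ℤ) (g α) (fun _ => 0) y := by
    unfold alt
    rw [Finset.sum_comm]
    refine Finset.sum_congr rfl fun e _ => ?_
    rw [hg3, Finset.mul_sum]
  rw [e2, Finset.sum_eq_zero fun α _ => LW_alt0 (g α) α (hg2 α) _ _] at e1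
  exact h1 e1.symm

end Pool.Agent.helper35.MR
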