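import Pool.Agent.helper35.MR.SpecB

/-! # Project mr, module SEL: choice of vectors -/

set_option autoImplicit false

open Finset

namespace Pool.Agent.helper35.MR

open Pool.Agent.RRank

section
variable {X Y K : Type} [Field K] [Fintype X] [Fintype Y]

def SEL_R (A : X → Y → K) (v : Y → K) : X → K := fun x => ∑ y, A x y * v y

def SEL_L (A : X → Y → K) (u : X → K) : Y → K := fun y => ∑ x, A x y * u x

theorem SEL_R_ev (A : X → Y → K) (u : X → K) (v : Y → K) : ev1 (SEL_R A v) u = ev2 A u v := by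
  unfold ev1 ev2 SEL_R
  refine Finset.sum_congr rfl fun x _ => ?_
  rw [Finset.sum_mul]
  exact Finset.sum_congr rfl fun y _ => by ring

theorem SEL_L_ev (A : X → Y → K) (u : X → K) (v : Y → K) : ev1 (SEL_L A u) v = ev2 A u v := by
  unfold ev1 ev2 SEL_L
  rw [Finset.sum_comm]
  refine Finset.sum_congr rfl fun y _ => ?_
  rw [Finset.sum_mul]
  exact Finset.sum_congr rfl fun x _ => by ring

theorem SEL_LR_mono {R R' : ℕ} (h : R ≤ R') (A : X → Y → K) (hA : LR R A) : LR R' A := by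
  obtain ⟨f, g, hfg⟩ := hA
  refine ⟨fun n => if h : (n : ℕ) < R then f ⟨n, h⟩ else 0, fun n => if h : (n : ℕ) < R then g ⟨n, h⟩ else 0, ?_⟩
  intro x y
  rw [hfg x y]
  have h1 : ∀ n : Fin R', (if h : (n : ℕ) < R then f ⟨n, h⟩ else 0) x *
      (if h : (n : ℕ) < R then g ⟨n, h⟩ else 0) y =
      (fun k : ℕ => if h : k < R then f ⟨k, h⟩ x * g ⟨k, h⟩ y else 0) n := by
    intro n
    simp only
    split_ifs <;> simp
  simp only [h1]
  rw [Fin.sum_univ_eq_sum_range (fun k : ℕ => if h : k < R then f ⟨k, h⟩ x * g ⟨k, h⟩ y else 0) R',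
    ← Finset.sum_subset (Finset.range_mono h), ← Fin.sum_univ_eq_sum_range]
  · refine Finset.sum_congr rfl fun n _ => ?_
    rw [dif_pos n.2]
  · intro k _ hk
    rw [Finset.mem_range] at hk
    rw [dif_neg hk]

theorem SEL_Reg_mono {a R R' : ℕ} (h : R ≤ R') (A : Fin a → X → Y → K) (hA : Reg R' A) :
    Reg R A := fun c hc hLR => hA c hc (SEL_LR_mono h _ hLR)

theorem SEL_pad {ι U : Type} [Fintype ι] (g : ℕ) (h : Fintype.card ι ≤ g) (φ : ι → U → K) :
    ∃ f : Fin g → U → K, ∀ i, ∃ n, f n = φ i := by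
  classical
  have h1 : Fintype.card ι ≤ Fintype.card (Fin g) := by simpa using h
  obtain ⟨e⟩ := Function.Embedding.nonempty_of_card_le h1
  refine ⟨Function.extend e φ 0, fun i => ⟨e i, e.injective.extend_apply φ 0 i⟩⟩

theorem SEL_ort (hORT : ORT_stmt) {a N g : ℕ} (ha : a ≤ N) (A : Fin a → X → Y → K)
    (hA : Reg (2 * g + 2 * N ^ 2) A) {ι κ : Type} [Fintype ι] [Fintype κ] (f : ι → X → K)
    (h : κ → Y → K) (hι : Fintype.card ι ≤ g) (hκ : Fintype.card κ ≤ g) (p : Fin a) :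
    ∃ (ξ : X → K) (η : Y → K), (∀ n, ev1 (f n) ξ = 0) ∧ (∀ n, ev1 (h n) η = 0) ∧
      ∀ p', ev2 (A p') ξ η = if p' = p then 1 else 0 := by
  obtain ⟨f', hf'⟩ := SEL_pad g hι f
  obtain ⟨h', hh'⟩ := SEL_pad g hκ h
  have hreg : Reg (2 * g + 2 * a ^ 2) A :=
    SEL_Reg_mono (by have := Nat.pow_le_pow_left ha 2; omega) A hA
  obtain ⟨ξ, η, h1, h2, h3⟩ := hORT K X Y a g A hreg f' h' p
  refine ⟨ξ, η, ?_, ?_, h3⟩
  · intro n
    obtain ⟨k, hk⟩ := hf' n
    rw [← hk]
    exact h1 k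
  · intro n
    obtain ⟨k, hk⟩ := hh' n
    rw [← hk]
    exact h2 k

end

theorem SEL_card (r a c e m k1 k2 N l : ℕ) (ha : a ≤ N) (hc : c ≤ N) (he : e ≤ N) (hm : m ≤ l)
    (h1 : k1 ≤ l) (h2 : k2 ≤ l) : r + (a * m + (c * k1 + e * k2)) ≤ r + 3 * N * l := by
  have e1 : a * m ≤ N * l := Nat.mul_le_mul ha hm
  have e2 : c * k1 ≤ N * l := Nat.mul_le_mul hc h1
  have e3 : e * k2 ≤ N * l := Nat.mul_le_mul he h2
  have e4 : 3 * N * l = N * l + N * l + N * l := by ring
  omega

theorem SEL (hORT : ORT_stmt) : SEL_stmt := by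
  intro l N r K X Y Z W _ _ _ _ _ a b c d e f ha hb hc hd he hf A B C D E F α β γ δ hA hB p q
  classical
  have key : ∀ m : ℕ, m ≤ l → ∃ (ξ : ℕ → X → K) (η : ℕ → Y → K) (ζ : ℕ → Z → K) (θ : ℕ → W → K),
      (∀ n, ∀ i < m, ev1 (α n) (ξ i) = 0) ∧ (∀ n, ∀ i < m, ev1 (β n) (η i) = 0) ∧
      (∀ n, ∀ i < m, ev1 (γ n) (ζ i) = 0) ∧ (∀ n, ∀ i < m, ev1 (δ n) (θ i) = 0) ∧
      (∀ p', ∀ i < m, ∀ j < m, ev2 (A p') (ξ i) (η j) = if p' = p ∧ i = j then 1 else 0) ∧
      (∀ q', ∀ i < m, ∀ j < m, ev2 (B q') (ζ i) (θ j) = if q' = q ∧ i = j then 1 else 0) ∧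
      (∀ p', ∀ i < m, ∀ j < m, ev2 (C p') (ξ i) (ζ j) = 0) ∧
      (∀ p', ∀ i < m, ∀ j < m, ev2 (D p') (η i) (θ j) = 0) ∧
      (∀ p', ∀ i < m, ∀ j < m, ev2 (E p') (ξ i) (θ j) = 0) ∧
      (∀ p', ∀ i < m, ∀ j < m, ev2 (F p') (η i) (ζ j) = 0) := by
    intro m
    induction m with
    | zero =>
      intro _
      exact ⟨fun _ => 0, fun _ => 0, fun _ => 0, fun _ => 0, fun _ i hi => absurd hi (Nat.not_lt_zero i),
        fun _ i hi => absurd hi (Nat.not_lt_zero i), fun _ i hi => absurd hi (Nat.not_lt_zero i),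
        fun _ i hi => absurd hi (Nat.not_lt_zero i), fun _ i hi => absurd hi (Nat.not_lt_zero i),
        fun _ i hi => absurd hi (Nat.not_lt_zero i), fun _ i hi => absurd hi (Nat.not_lt_zero i),
        fun _ i hi => absurd hi (Nat.not_lt_zero i), fun _ i hi => absurd hi (Nat.not_lt_zero i),
        fun _ i hi => absurd hi (Nat.not_lt_zero i)⟩
    | succ m ih =>
      intro hm
      obtain ⟨ξ, η, ζ, θ, h1, h2, h3, h4, h5, h6, h7, h8, h9, h10⟩ := ih (by omega)
      -- the new pair of the first two directions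
      obtain ⟨x, y, hx, hy, hxy⟩ := SEL_ort hORT ha A hA
        (Sum.elim α (Sum.elim (fun pj : Fin a × Fin m => SEL_R (A pj.1) (η pj.2))
          (Sum.elim (fun pj : Fin c × Fin m => SEL_R (C pj.1) (ζ pj.2))
            (fun pj : Fin e × Fin m => SEL_R (E pj.1) (θ pj.2)))))
        (Sum.elim β (Sum.elim (fun pj : Fin a × Fin m => SEL_L (A pj.1) (ξ pj.2))
          (Sum.elim (fun pj : Fin d × Fin m => SEL_R (D pj.1) (θ pj.2))
            (fun pj : Fin f × Fin m => SEL_R (F pj.1) (ζ pj.2)))))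
        (by
          simp only [Fintype.card_sum, Fintype.card_prod, Fintype.card_fin]
          exact SEL_card r a c e m m m N l ha hc he (by omega) (by omega) (by omega))
        (by
          simp only [Fintype.card_sum, Fintype.card_prod, Fintype.card_fin]
          exact SEL_card r a d f m m m N l ha hd hf (by omega) (by omega) (by omega)) p
      have hx1 : ∀ n, ev1 (α n) x = 0 := fun n => hx (Sum.inl n)
      have hx2 : ∀ p', ∀ j < m, ev2 (A p') x (η j) = 0 := fun p' j hj => by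
        rw [← SEL_R_ev]; exact hx (Sum.inr (Sum.inl (p', ⟨j, hj⟩)))
      have hx3 : ∀ p', ∀ j < m, ev2 (C p') x (ζ j) = 0 := fun p' j hj => by
        rw [← SEL_R_ev]; exact hx (Sum.inr (Sum.inr (Sum.inl (p', ⟨j, hj⟩))))
      have hx4 : ∀ p', ∀ j < m, ev2 (E p') x (θ j) = 0 := fun p' j hj => by
        rw [← SEL_R_ev]; exact hx (Sum.inr (Sum.inr (Sum.inr (p', ⟨j, hj⟩))))
      have hy1 : ∀ n, ev1 (β n) y = 0 := fun n => hy (Sum.inl n)
      have hy2 : ∀ p', ∀ j < m, ev2 (A p') (ξ j) y = 0 := fun p' j hj => by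
        rw [← SEL_L_ev]; exact hy (Sum.inr (Sum.inl (p', ⟨j, hj⟩)))
      have hy3 : ∀ p', ∀ j < m, ev2 (D p') y (θ j) = 0 := fun p' j hj => by
        rw [← SEL_R_ev]; exact hy (Sum.inr (Sum.inr (Sum.inl (p', ⟨j, hj⟩))))
      have hy4 : ∀ p', ∀ j < m, ev2 (F p') y (ζ j) = 0 := fun p' j hj => by
        rw [← SEL_R_ev]; exact hy (Sum.inr (Sum.inr (Sum.inr (p', ⟨j, hj⟩))))
      -- the sequences with the new vector
      obtain ⟨ξ', hξm, hξ⟩ : ∃ ξ' : ℕ → X → K, ξ' m = x ∧ ∀ i < m, ξ' i = ξ i :=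
        ⟨Function.update ξ m x, Function.update_self _ _ _,
          fun i hi => Function.update_of_ne (by omega) _ _⟩
      obtain ⟨η', hηm, hη⟩ : ∃ η' : ℕ → Y → K, η' m = y ∧ ∀ i < m, η' i = η i :=
        ⟨Function.update η m y, Function.update_self _ _ _,
          fun i hi => Function.update_of_ne (by omega) _ _⟩
      obtain ⟨z, w, hz, hw, hzw⟩ := SEL_ort hORT hb B hB
        (Sum.elim γ (Sum.elim (fun pj : Fin b × Fin m => SEL_R (B pj.1) (θ pj.2))
          (Sum.elim (fun pj : Fin c × Fin (m + 1) => SEL_L (C pj.1) (ξ' pj.2))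
            (fun pj : Fin f × Fin (m + 1) => SEL_L (F pj.1) (η' pj.2)))))
        (Sum.elim δ (Sum.elim (fun pj : Fin b × Fin m => SEL_L (B pj.1) (ζ pj.2))
          (Sum.elim (fun pj : Fin e × Fin (m + 1) => SEL_L (E pj.1) (ξ' pj.2))
            (fun pj : Fin d × Fin (m + 1) => SEL_L (D pj.1) (η' pj.2)))))
        (by
          simp only [Fintype.card_sum, Fintype.card_prod, Fintype.card_fin]
          exact SEL_card r b c f m (m + 1) (m + 1) N l hb hc hf (by omega) hm hm)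
        (by
          simp only [Fintype.card_sum, Fintype.card_prod, Fintype.card_fin]
          exact SEL_card r b e d m (m + 1) (m + 1) N l hb he hd (by omega) hm hm) q
      have hz1 : ∀ n, ev1 (γ n) z = 0 := fun n => hz (Sum.inl n)
      have hz2 : ∀ p', ∀ j < m, ev2 (B p') z (θ j) = 0 := fun p' j hj => by
        rw [← SEL_R_ev]; exact hz (Sum.inr (Sum.inl (p', ⟨j, hj⟩)))
      have hz3 : ∀ p', ∀ j < m + 1, ev2 (C p') (ξ' j) z = 0 := fun p' j hj => by
        rw [← SEL_L_ev]; exact hz (Sum.inr (Sum.inr (Sum.inl (p', ⟨j, hj⟩))))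
      have hz4 : ∀ p', ∀ j < m + 1, ev2 (F p') (η' j) z = 0 := fun p' j hj => by
        rw [← SEL_L_ev]; exact hz (Sum.inr (Sum.inr (Sum.inr (p', ⟨j, hj⟩))))
      have hw1 : ∀ n, ev1 (δ n) w = 0 := fun n => hw (Sum.inl n)
      have hw2 : ∀ p', ∀ j < m, ev2 (B p') (ζ j) w = 0 := fun p' j hj => by
        rw [← SEL_L_ev]; exact hw (Sum.inr (Sum.inl (p', ⟨j, hj⟩)))
      have hw3 : ∀ p', ∀ j < m + 1, ev2 (E p') (ξ' j) w = 0 := fun p' j hj => by
        rw [← SEL_L_ev]; exact hw (Sum.inr (Sum.inr (Sum.inl (p', ⟨j, hj⟩))))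
      have hw4 : ∀ p', ∀ j < m + 1, ev2 (D p') (η' j) w = 0 := fun p' j hj => by
        rw [← SEL_L_ev]; exact hw (Sum.inr (Sum.inr (Sum.inr (p', ⟨j, hj⟩))))
      obtain ⟨ζ', hζm, hζ⟩ : ∃ ζ' : ℕ → Z → K, ζ' m = z ∧ ∀ i < m, ζ' i = ζ i :=
        ⟨Function.update ζ m z, Function.update_self _ _ _,
          fun i hi => Function.update_of_ne (by omega) _ _⟩
      obtain ⟨θ', hθm, hθ⟩ : ∃ θ' : ℕ → W → K, θ' m = w ∧ ∀ i < m, θ' i = θ i :=
        ⟨Function.update θ m w, Function.update_self _ _ _,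
          fun i hi => Function.update_of_ne (by omega) _ _⟩
      refine ⟨ξ', η', ζ', θ', ?_, ?_, ?_, ?_, ?_, ?_, ?_, ?_, ?_, ?_⟩
      · intro n i hi
        rcases Nat.lt_succ_iff_lt_or_eq.mp hi with hi | rfl
        · rw [hξ i hi]; exact h1 n i hi
        · rw [hξm]; exact hx1 n
      · intro n i hi
        rcases Nat.lt_succ_iff_lt_or_eq.mp hi with hi | rfl
        · rw [hη i hi]; exact h2 n i hi
        · rw [hηm]; exact hy1 n
      · intro n i hi
        rcases Nat.lt_succ_iff_lt_or_eq.mp hi with hi | rfl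
        · rw [hζ i hi]; exact h3 n i hi
        · rw [hζm]; exact hz1 n
      · intro n i hi
        rcases Nat.lt_succ_iff_lt_or_eq.mp hi with hi | rfl
        · rw [hθ i hi]; exact h4 n i hi
        · rw [hθm]; exact hw1 n
      · intro p' i hi j hj
        rcases Nat.lt_succ_iff_lt_or_eq.mp hi with hi | hi <;>
          rcases Nat.lt_succ_iff_lt_or_eq.mp hj with hj | hj
        · rw [hξ i hi, hη j hj]; exact h5 p' i hi j hj
        · subst hj
          rw [hξ i hi, hηm, hy2 p' i hi, if_neg (fun h => by omega)]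
        · subst hi
          rw [hξm, hη j hj, hx2 p' j hj, if_neg (fun h => by omega)]
        · subst hi
          subst hj
          rw [hξm, hηm, hxy p']
          simp
      · intro p' i hi j hj
        rcases Nat.lt_succ_iff_lt_or_eq.mp hi with hi | hi <;>
          rcases Nat.lt_succ_iff_lt_or_eq.mp hj with hj | hj
        · rw [hζ i hi, hθ j hj]; exact h6 p' i hi j hj
        · subst hj
          rw [hζ i hi, hθm, hw2 p' i hi, if_neg (fun h => by omega)]
        · subst hi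
          rw [hζm, hθ j hj, hz2 p' j hj, if_neg (fun h => by omega)]
        · subst hi
          subst hj
          rw [hζm, hθm, hzw p']
          simp
      · intro p' i hi j hj
        rcases Nat.lt_succ_iff_lt_or_eq.mp hj with hj | hj
        · rcases Nat.lt_succ_iff_lt_or_eq.mp hi with hi | hi
          · rw [hξ i hi, hζ j hj]; exact h7 p' i hi j hj
          · subst hi
            rw [hξm, hζ j hj]; exact hx3 p' j hj
        · subst hj
          rw [hζm]; exact hz3 p' i hi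
      · intro p' i hi j hj
        rcases Nat.lt_succ_iff_lt_or_eq.mp hj with hj | hj
        · rcases Nat.lt_succ_iff_lt_or_eq.mp hi with hi | hi
          · rw [hη i hi, hθ j hj]; exact h8 p' i hi j hj
          · subst hi
            rw [hηm, hθ j hj]; exact hy3 p' j hj
        · subst hj
          rw [hθm]; exact hw4 p' i hi
      · intro p' i hi j hj
        rcases Nat.lt_succ_iff_lt_or_eq.mp hj with hj | hj
        · rcases Nat.lt_succ_iff_lt_or_eq.mp hi with hi | hi
          · rw [hξ i hi, hθ j hj]; exact h9 p' i hi j hj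
          · subst hi
            rw [hξm, hθ j hj]; exact hx4 p' j hj
        · subst hj
          rw [hθm]; exact hw3 p' i hi
      · intro p' i hi j hj
        rcases Nat.lt_succ_iff_lt_or_eq.mp hj with hj | hj
        · rcases Nat.lt_succ_iff_lt_or_eq.mp hi with hi | hi
          · rw [hη i hi, hζ j hj]; exact h10 p' i hi j hj
          · subst hi
            rw [hηm, hζ j hj]; exact hy4 p' j hj
        · subst hj
          rw [hζm]; exact hz4 p' i hi
  obtain ⟨ξ, η, ζ, θ, h1, h2, h3, h4, h5, h6, h7, h8, h9, h10⟩ := key l le_rfl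
  refine ⟨fun i => ξ i, fun i => η i, fun i => ζ i, fun i => θ i, fun n i => h1 n i i.2,
    fun n i => h2 n i i.2, fun n i => h3 n i i.2, fun n i => h4 n i i.2, ?_, ?_,
    fun p' i j => h7 p' i i.2 j j.2, fun p' i j => h8 p' i i.2 j j.2,
    fun p' i j => h9 p' i i.2 j j.2, fun p' i j => h10 p' i i.2 j j.2⟩
  · intro p' i j
    rw [h5 p' i i.2 j j.2]
    simp only [Fin.ext_iff]
  · intro p' i j
    rw [h6 p' i i.2 j j.2]
    simp only [Fin.ext_iff]

end Pool.Agent.helper35.MR
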